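import Pool.Agent.Q196.GT.Main

/-!
# MP_13a01f_pr: log-Sobolev constants of Gaussian tilts of log-concave measures

Disproof of Q1, with isotropic measures.  See `Pool.Agent.Q196.GT.Defs` for the definitions of
log-concavity (`LogConcave`), of the log-Sobolev constant (`CLSI`) and of the Gaussian tilt
`π γ_h` (`tilt π h`), and `Pool.Agent.Q196.GT.Main` for `Isotropic` and `CompactlySupported`.

The measure: on `[0, N] × [0, 1]^m`, `m = N⁶`, take the product of the density proportional to
`exp ((N² - 1) t) (1 - t / N⁴)^m` (exponentially concentrated near `t = 0`) and the uniform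
measure, and push it forward by `(t, z) ↦ ((a - t) / σ, r (1 - t / N⁴) (2 z - 1))`.  The tilt by
the Gaussian of variance `h = N²` makes the law of `t` comparable with the uniform law on `[0, N]`.
-/

set_option autoImplicit false

open MeasureTheory Set
open scoped ENNReal NNReal

namespace Pool.Agent.Results.MP_13a01f_pr.IsotropicTilt

open Pool.Agent.Q196.GT

/-- For every `C` there are `n ≥ 1`, a compactly supported log-concave probability measure `π` on
`ℝⁿ`, which is moreover isotropic (mean zero, identity covariance), and `h > 0` with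
`C_LSI (π γ_h) > C * C_LSI (π)`: no absolute constant `C` works, even for isotropic measures. -/
theorem result :
    ∀ C : ℝ≥0, ∃ (n : ℕ) (π : Measure (E n)) (h : ℝ), 1 ≤ n ∧ IsProbabilityMeasure π ∧
      LogConcave π ∧ CompactlySupported π ∧ Isotropic π ∧ 0 < h ∧
      (C : ℝ≥0∞) * CLSI π < CLSI (tilt π h) := by
  intro C
  obtain ⟨M, hM⟩ := exists_nat_gt ((C : ℝ) / (Real.exp (-98) / 24000))
  set N := max M 2 with hNd
  have hN : 2 ≤ N := le_max_right _ _
  have hMN : (M : ℝ) ≤ N := by exact_mod_cast le_max_left M 2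
  have hc : (0 : ℝ) < Real.exp (-98) / 24000 := by positivity
  have hCN : (C : ℝ) < Real.exp (-98) / 24000 * N := by
    rw [div_lt_iff₀ hc] at hM
    nlinarith
  refine ⟨N ^ 6 + 1, PI N, (N : ℝ) ^ 2, Nat.le_add_left 1 _, PI_prob hN, logConcave hN,
    compact_supp hN, ⟨mean_zero hN, cov hN⟩, by positivity, ?_⟩
  rcases eq_or_ne (CLSI (PI N)) 0 with h0 | h0
  · rw [h0, mul_zero]
    exact main_pos hN
  · refine lt_of_lt_of_le ?_ (main hN)
    refine ENNReal.mul_lt_mul_left h0 (main_finite hN).ne ?_
    rw [← ENNReal.ofReal_coe_nnreal]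
    exact (ENNReal.ofReal_lt_ofReal_iff (by positivity)).2 hCN

end Pool.Agent.Results.MP_13a01f_pr.IsotropicTilt
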